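import Pool.Agent.Q81.TF.Stm

/-!
# The explicit cutoff
-/

set_option autoImplicit false

open Set Filter Topology Asymptotics

namespace Pool.Agent.Q192.TF

/-- the clipped variable -/
noncomputable def zr (b v : ℝ) : ℝ := max 0 (min 1 ((v - b) / b))

lemma zr_nonneg (b v : ℝ) : 0 ≤ zr b v := le_max_left _ _

lemma zr_le_one (b v : ℝ) : zr b v ≤ 1 := max_le zero_le_one (min_le_left _ _)

lemma zr_lo {b v : ℝ} (hb : 0 < b) (h : v ≤ b) : zr b v = 0 := by
  unfold zr
  apply max_eq_left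
  refine (min_le_right _ _).trans ?_
  exact div_nonpos_of_nonpos_of_nonneg (by linarith) hb.le

lemma zr_hi {b v : ℝ} (hb : 0 < b) (h : 2 * b ≤ v) : zr b v = 1 := by
  unfold zr
  have h1 : 1 ≤ (v - b) / b := by rw [le_div_iff₀ hb]; linarith
  rw [min_eq_left h1]
  exact max_eq_right zero_le_one

lemma zr_mid {b v : ℝ} (hb : 0 < b) (h1 : b ≤ v) (h2 : v ≤ 2 * b) : zr b v = (v - b) / b := by
  unfold zr
  have h3 : (v - b) / b ≤ 1 := by rw [div_le_iff₀ hb]; linarith
  have h4 : 0 ≤ (v - b) / b := div_nonneg (by linarith) hb.le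
  rw [min_eq_right h3, max_eq_right h4]

lemma zr_cont (b : ℝ) : Continuous (zr b) := by
  unfold zr
  fun_prop

/-- `9 r^4`-type bound near the lower end -/
lemma zr_abs_lo {b : ℝ} (hb : 0 < b) (v : ℝ) : zr b v ≤ |v - b| / b := by
  rcases le_total v b with h | h
  · rw [zr_lo hb h]
    positivity
  · rw [abs_of_nonneg (by linarith)]
    unfold zr
    exact max_le (div_nonneg (by linarith) hb.le) (min_le_right _ _)

lemma zr_abs_hi {b : ℝ} (hb : 0 < b) (v : ℝ) : 1 - zr b v ≤ |v - 2 * b| / b := by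
  rcases le_total (2 * b) v with h | h
  · rw [zr_hi hb h, sub_self]
    positivity
  · rcases le_total v b with h' | h'
    · rw [zr_lo hb h', sub_zero, le_div_iff₀ hb, abs_of_nonpos (by linarith)]
      linarith
    · rw [zr_mid hb h' h, abs_of_nonpos (by linarith), le_div_iff₀ hb, sub_mul,
        div_mul_cancel₀ _ hb.ne']
      linarith

/-- the cutoff -/
noncomputable def zz (b v : ℝ) : ℝ := (3 * zr b v ^ 2 - 2 * zr b v ^ 3) ^ 2

/-- its derivative -/
noncomputable def zz1 (b v : ℝ) : ℝ :=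
  12 * (3 * zr b v ^ 2 - 2 * zr b v ^ 3) * (zr b v - zr b v ^ 2) / b

lemma th_lo {r : ℝ} (_h0 : 0 ≤ r) (h1 : r ≤ 1) : r ^ 2 ≤ 3 * r ^ 2 - 2 * r ^ 3 := by
  nlinarith [mul_nonneg (sq_nonneg r) (sub_nonneg.mpr h1)]

lemma th_hi {r : ℝ} (h0 : 0 ≤ r) : 3 * r ^ 2 - 2 * r ^ 3 ≤ 3 * r ^ 2 := by
  nlinarith [pow_nonneg h0 3]

lemma th_one {r : ℝ} (h0 : 0 ≤ r) (_h1 : r ≤ 1) : 3 * r ^ 2 - 2 * r ^ 3 ≤ 1 := by
  nlinarith [mul_nonneg (sq_nonneg (1 - r)) (by linarith : (0 : ℝ) ≤ 1 + 2 * r)]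

lemma sq_bound_deriv {f : ℝ → ℝ} {x K : ℝ} (h : ∀ y, |f y - f x| ≤ K * (y - x) ^ 2) :
    HasDerivAt f 0 x := by
  have h1 : (fun y => f y - f x) =O[𝓝 x] fun y => ‖y - x‖ ^ 2 := by
    apply IsBigO.of_bound K
    filter_upwards with y
    have := h y
    simpa [Real.norm_eq_abs] using this
  have h2 := h1.hasFDerivAt (𝕜 := ℝ) (by norm_num : 1 < 2)
  have h3 : HasDerivAt (fun y => f y - f x) 0 x := by
    have := h2.hasDerivAt
    simpa using this
  have h4 := h3.add_const (f x)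
  simpa using h4

lemma zz_deriv {b : ℝ} (hb : 0 < b) (v : ℝ) : HasDerivAt (zz b) (zz1 b v) v := by
  rcases lt_trichotomy v b with h | h | h
  · -- v < b
    have h1 : zz1 b v = 0 := by
      unfold zz1; rw [zr_lo hb h.le]; simp
    rw [h1]
    have h2 : zz b =ᶠ[𝓝 v] fun _ => (0 : ℝ) := by
      filter_upwards [gt_mem_nhds h] with w hw
      unfold zz
      rw [zr_lo hb (le_of_lt hw)]; simp
    exact (hasDerivAt_const v (0 : ℝ)).congr_of_eventuallyEq h2
  · -- v = b
    have h1 : zz1 b v = 0 := by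
      unfold zz1; rw [zr_lo hb h.le]; simp
    rw [h1]
    have hv : zz b v = 0 := by unfold zz; rw [zr_lo hb h.le]; simp
    refine sq_bound_deriv (K := 9 / b ^ 2) fun w => ?_
    rw [hv, sub_zero]
    have hr0 := zr_nonneg b w
    have hr1 := zr_le_one b w
    have hr2 := zr_abs_lo hb w
    have hθ0 : 0 ≤ 3 * zr b w ^ 2 - 2 * zr b w ^ 3 := (sq_nonneg _).trans (th_lo hr0 hr1)
    have hθ1 := th_hi hr0
    have h3 : zz b w ≤ 9 * zr b w ^ 2 := by
      unfold zz
      have h4 : (3 * zr b w ^ 2 - 2 * zr b w ^ 3) ^ 2 ≤ (3 * zr b w ^ 2) ^ 2 :=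
        pow_le_pow_left₀ hθ0 hθ1 2
      have h5 : zr b w ^ 4 ≤ zr b w ^ 2 := pow_le_pow_of_le_one hr0 hr1 (by norm_num)
      nlinarith
    have h4 : zr b w ^ 2 ≤ (|w - b| / b) ^ 2 := pow_le_pow_left₀ hr0 hr2 2
    have h5 : (|w - b| / b) ^ 2 = (w - b) ^ 2 / b ^ 2 := by rw [div_pow, sq_abs]
    rw [abs_of_nonneg (by unfold zz; positivity), h]
    calc zz b w ≤ 9 * zr b w ^ 2 := h3
      _ ≤ 9 * ((w - b) ^ 2 / b ^ 2) := by rw [← h5]; linarith
      _ = 9 / b ^ 2 * (w - b) ^ 2 := by ring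
  · rcases lt_trichotomy v (2 * b) with h' | h' | h'
    · -- b < v < 2b
      have e1 : zr b =ᶠ[𝓝 v] fun w => (w - b) / b := by
        filter_upwards [lt_mem_nhds h, gt_mem_nhds h'] with w h1 h2
        exact zr_mid hb (le_of_lt h1) (le_of_lt h2)
      have d1 : HasDerivAt (zr b) (1 / b) v := by
        refine HasDerivAt.congr_of_eventuallyEq ?_ e1
        exact ((hasDerivAt_id v).sub_const b).div_const b
      have d2 : HasDerivAt (fun w => (3 * zr b w ^ 2 - 2 * zr b w ^ 3) ^ 2)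
          (2 * (3 * zr b v ^ 2 - 2 * zr b v ^ 3) *
            (3 * (2 * zr b v * (1 / b)) - 2 * (3 * zr b v ^ 2 * (1 / b)))) v := by
        have q2 : HasDerivAt (fun w => zr b w ^ 2) (2 * zr b v * (1 / b)) v := by
          have := d1.fun_pow 2
          refine this.congr_deriv ?_
          norm_num
        have q3 : HasDerivAt (fun w => zr b w ^ 3) (3 * zr b v ^ 2 * (1 / b)) v := by
          have := d1.fun_pow 3
          refine this.congr_deriv ?_
          norm_num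
        have q4 := (q2.const_mul 3).fun_sub (q3.const_mul 2)
        have := q4.fun_pow 2
        refine this.congr_deriv ?_
        norm_num
      have d3 : zz1 b v = 2 * (3 * zr b v ^ 2 - 2 * zr b v ^ 3) *
            (3 * (2 * zr b v * (1 / b)) - 2 * (3 * zr b v ^ 2 * (1 / b))) := by
        unfold zz1
        ring
      rw [d3]
      exact d2
    · -- v = 2b
      have h1 : zz1 b v = 0 := by
        unfold zz1; rw [zr_hi hb h'.ge]; simp
      rw [h1]
      have hv : zz b v = 1 := by unfold zz; rw [zr_hi hb h'.ge]; norm_num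
      refine sq_bound_deriv (K := 6 / b ^ 2) fun w => ?_
      rw [hv]
      have hr0 := zr_nonneg b w
      have hr1 := zr_le_one b w
      have hr2 := zr_abs_hi hb w
      set r := zr b w with hr
      have hθ0 : 0 ≤ 3 * r ^ 2 - 2 * r ^ 3 := (sq_nonneg _).trans (th_lo hr0 hr1)
      have hθ1 := th_one hr0 hr1
      have e1 : 1 - (3 * r ^ 2 - 2 * r ^ 3) = (1 - r) ^ 2 * (1 + 2 * r) := by ring
      have h3 : 1 - (3 * r ^ 2 - 2 * r ^ 3) ≤ 3 * (1 - r) ^ 2 := by
        rw [e1]; nlinarith [sq_nonneg (1 - r)]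
      have h4 : |zz b w - 1| ≤ 6 * (1 - r) ^ 2 := by
        unfold zz
        rw [← hr]
        set θ := 3 * r ^ 2 - 2 * r ^ 3 with hθ
        rw [abs_le]
        constructor
        · nlinarith [sq_nonneg (1 - r)]
        · nlinarith [sq_nonneg (1 - r)]
      have h5 : (1 - r) ^ 2 ≤ (|w - 2 * b| / b) ^ 2 :=
        pow_le_pow_left₀ (by linarith) hr2 2
      have h6 : (|w - 2 * b| / b) ^ 2 = (w - 2 * b) ^ 2 / b ^ 2 := by rw [div_pow, sq_abs]
      rw [h']
      calc |zz b w - 1| ≤ 6 * (1 - r) ^ 2 := h4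
        _ ≤ 6 * ((w - 2 * b) ^ 2 / b ^ 2) := by rw [← h6]; linarith
        _ = 6 / b ^ 2 * (w - 2 * b) ^ 2 := by ring
    · -- 2b < v
      have h1 : zz1 b v = 0 := by
        unfold zz1; rw [zr_hi hb h'.le]; simp
      rw [h1]
      have h2 : zz b =ᶠ[𝓝 v] fun _ => (1 : ℝ) := by
        filter_upwards [lt_mem_nhds h'] with w hw
        unfold zz
        rw [zr_hi hb (le_of_lt hw)]; norm_num
      exact (hasDerivAt_const v (1 : ℝ)).congr_of_eventuallyEq h2

lemma zz1_nonneg {b : ℝ} (hb : 0 < b) (v : ℝ) : 0 ≤ zz1 b v := by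
  unfold zz1
  have hr0 := zr_nonneg b v
  have hr1 := zr_le_one b v
  have h1 : 0 ≤ 3 * zr b v ^ 2 - 2 * zr b v ^ 3 := (sq_nonneg _).trans (th_lo hr0 hr1)
  have h2 : 0 ≤ zr b v - zr b v ^ 2 := by nlinarith
  positivity

lemma zz_mono {b : ℝ} (hb : 0 < b) : Monotone (zz b) := by
  apply monotone_of_deriv_nonneg (fun v => (zz_deriv hb v).differentiableAt)
  intro v
  rw [(zz_deriv hb v).deriv]
  exact zz1_nonneg hb v

theorem zcut : Pool.Agent.Q81.TF.S_ZCUT := by
  intro b hb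
  refine ⟨zz b, zz1 b, ?_⟩
  constructor
  · -- continuity
    unfold zz1
    have := zr_cont b
    fun_prop
  · exact zz_deriv hb
  · intro v hv
    unfold zz zz1
    rw [zr_lo hb hv]
    constructor <;> simp
  · intro v hv
    unfold zz zz1
    rw [zr_hi hb hv]
    constructor
    · norm_num
    · simp
  · intro v
    have hr0 := zr_nonneg b v
    have hr1 := zr_le_one b v
    have h1 : 0 ≤ 3 * zr b v ^ 2 - 2 * zr b v ^ 3 := (sq_nonneg _).trans (th_lo hr0 hr1)
    have h2 := th_one hr0 hr1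
    unfold zz
    exact ⟨by positivity, pow_le_one₀ h1 h2⟩
  · exact zz_mono hb
  · intro v
    have hr0 := zr_nonneg b v
    have hr1 := zr_le_one b v
    have h1 := th_lo hr0 hr1
    unfold zz zz1
    set r := zr b v with hr
    set θ := 3 * r ^ 2 - 2 * r ^ 3 with hθ
    have hθ0 : 0 ≤ θ := (sq_nonneg _).trans h1
    have e1 : (12 * θ * (r - r ^ 2) / b) ^ 4 * b ^ 4 = 20736 * θ ^ 4 * (r - r ^ 2) ^ 4 := by
      field_simp
      ring
    rw [e1]
    have h2 : (r - r ^ 2) ^ 2 ≤ θ := by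
      refine le_trans ?_ h1
      have : r - r ^ 2 ≤ r := by nlinarith [sq_nonneg r]
      exact pow_le_pow_left₀ (by nlinarith) this 2
    have h3 : (r - r ^ 2) ^ 4 ≤ θ ^ 2 := by
      have := pow_le_pow_left₀ (sq_nonneg (r - r ^ 2)) h2 2
      calc (r - r ^ 2) ^ 4 = ((r - r ^ 2) ^ 2) ^ 2 := by ring
        _ ≤ θ ^ 2 := this
    calc 20736 * θ ^ 4 * (r - r ^ 2) ^ 4 ≤ 20736 * θ ^ 4 * θ ^ 2 :=
          mul_le_mul_of_nonneg_left h3 (by positivity)
      _ = 20736 * (θ ^ 2) ^ 3 := by ring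
  · intro v hv
    rcases le_total v (2 * b) with h | h
    · have e1 : zr b v = (v - b) / b := zr_mid hb hv h
      have e2 : zr b ((v + b) / 2) = zr b v / 2 := by
        rw [zr_mid hb (by linarith) (by linarith), e1]
        field_simp
        ring
      have hr0 := zr_nonneg b v
      have hr1 := zr_le_one b v
      unfold zz
      rw [e2]
      set r := zr b v with hr
      have h1 := th_hi hr0
      have hθ0 : 0 ≤ 3 * r ^ 2 - 2 * r ^ 3 := (sq_nonneg _).trans (th_lo hr0 hr1)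
      have h2 : 3 * r ^ 2 - 2 * r ^ 3 ≤ 6 * (3 * (r / 2) ^ 2 - 2 * (r / 2) ^ 3) := by
        nlinarith [mul_nonneg (sq_nonneg r) (sub_nonneg.mpr hr1)]
      calc (3 * r ^ 2 - 2 * r ^ 3) ^ 2 ≤ (6 * (3 * (r / 2) ^ 2 - 2 * (r / 2) ^ 3)) ^ 2 :=
            pow_le_pow_left₀ hθ0 h2 2
        _ = 36 * (3 * (r / 2) ^ 2 - 2 * (r / 2) ^ 3) ^ 2 := by ring
    · have h1 : zz b v = 1 := by unfold zz; rw [zr_hi hb h]; norm_num
      have h2 : zz b (3 * b / 2) = 1 / 4 := by
        unfold zz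
        have : zr b (3 * b / 2) = 1 / 2 := by
          rw [zr_mid hb (by linarith) (by linarith)]
          field_simp
          ring
        rw [this]
        norm_num
      have h3 : zz b (3 * b / 2) ≤ zz b ((v + b) / 2) := zz_mono hb (by linarith)
      rw [h1]
      rw [h2] at h3
      linarith
  · intro v hv
    rcases le_total v (2 * b) with h | h
    · have e1 : zr b v = (v - b) / b := zr_mid hb hv h
      have hr0 := zr_nonneg b v
      have hr1 := zr_le_one b v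
      unfold zz
      have h1 := th_hi hr0
      have hθ0 : 0 ≤ 3 * zr b v ^ 2 - 2 * zr b v ^ 3 := (sq_nonneg _).trans (th_lo hr0 hr1)
      have h2 : (3 * zr b v ^ 2 - 2 * zr b v ^ 3) ^ 2 ≤ (3 * zr b v ^ 2) ^ 2 :=
        pow_le_pow_left₀ hθ0 h1 2
      have h3 : b * zr b v = v - b := by
        rw [e1]; field_simp
      calc b ^ 4 * (3 * zr b v ^ 2 - 2 * zr b v ^ 3) ^ 2 ≤ b ^ 4 * (3 * zr b v ^ 2) ^ 2 :=
            mul_le_mul_of_nonneg_left h2 (by positivity)
        _ = 9 * (b * zr b v) ^ 4 := by ring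
        _ = 9 * (v - b) ^ 4 := by rw [h3]
    · have h1 : zz b v = 1 := by unfold zz; rw [zr_hi hb h]; norm_num
      rw [h1]
      have h2 : b ^ 4 ≤ (v - b) ^ 4 := pow_le_pow_left₀ hb.le (by linarith) 4
      nlinarith [pow_nonneg hb.le 4]

end Pool.Agent.Q192.TF
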